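import Pool.Agent.Helper24.AB.AN.Goals

/-!
# Packet AB-MVT: iterated difference quotients are bounded by derivatives
-/

set_option autoImplicit false

open MeasureTheory Set Filter Topology
open scoped ContDiff

namespace Pool.Agent.Helper59.AB

open Pool.Agent.Helper24.AB

/-- difference quotient -/
noncomputable def dq59 (h : ℝ) (g : ℝ → ℂ) : ℝ → ℂ := fun t => (g (t + h) - g t) / h

lemma iter_dq59 (f : ℝ → ℂ) (hf : ContDiff ℝ ∞ f) (h : ℝ) (k : ℕ) :
    iteratedDeriv k (dq59 h f) = dq59 h (iteratedDeriv k f) := by
  induction k with
  | zero => simp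
  | succ k ih =>
    rw [iteratedDeriv_succ, ih]
    funext t
    have hd : ∀ x, HasDerivAt (iteratedDeriv k f) (iteratedDeriv (k + 1) f x) x := by
      intro x
      rw [iteratedDeriv_succ]
      exact (hf.differentiable_iteratedDeriv k (by exact_mod_cast WithTop.coe_lt_top _)
        ).differentiableAt.hasDerivAt
    have h1 : HasDerivAt (fun t => iteratedDeriv k f (t + h)) (iteratedDeriv (k + 1) f (t + h)) t :=
      (hd (t + h)).comp_add_const t h
    exact ((h1.sub (hd t)).div_const (h : ℂ)).deriv

theorem mvt : S_MVT := by
  have main : ∀ (k : ℕ) (f : ℝ → ℂ) (h t B : ℝ), 0 < h → ContDiff ℝ ∞ f →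
      (∀ s, 0 ≤ s → s ≤ k * h → ‖iteratedDeriv k f (t + s)‖ ≤ B) →
      ‖(dq59 h)^[k] f t‖ ≤ B := by
    intro k
    induction k with
    | zero =>
      intro f h t B hh hf hB
      have := hB 0 le_rfl (by simp)
      simpa using this
    | succ k ih =>
      intro f h t B hh hf hB
      rw [Function.iterate_succ_apply]
      have hsm : ContDiff ℝ ∞ (dq59 h f) := by
        unfold dq59
        exact ((hf.comp (contDiff_id.add contDiff_const)).sub hf).div_const _
      refine ih (dq59 h f) h t B hh hsm fun s hs0 hs => ?_
      rw [iter_dq59 f hf h k]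
      have hd : ∀ x, HasDerivAt (iteratedDeriv k f) (iteratedDeriv (k + 1) f x) x := by
        intro x
        rw [iteratedDeriv_succ]
        exact (hf.differentiable_iteratedDeriv k (by exact_mod_cast WithTop.coe_lt_top _)
          ).differentiableAt.hasDerivAt
      have hmv := norm_image_sub_le_of_norm_deriv_le_segment' (f := iteratedDeriv k f)
        (f' := iteratedDeriv (k + 1) f) (C := B) (a := t + s) (b := t + s + h)
        (fun x _ => (hd x).hasDerivWithinAt) (fun x hx => by
          have hx1 := hx.1
          have hx2 := hx.2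
          have := hB (x - t) (by linarith) (by push_cast; linarith)
          rwa [show t + (x - t) = x by ring] at this) (t + s + h) ⟨by linarith, le_rfl⟩
      rw [show t + s + h - (t + s) = h by ring] at hmv
      unfold dq59
      rw [norm_div, Complex.norm_real, Real.norm_eq_abs, abs_of_pos hh, div_le_iff₀ hh]
      exact hmv
  intro f h k t B hh hf hB
  exact main k f h t B hh hf hB

end Pool.Agent.Helper59.AB
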