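import Pool.Agent.Helper10.AB.GoalsF2

/-!
# Packet PB: pull back of a smooth function on the closure
-/

open MeasureTheory Set Filter Topology
open scoped ContDiff

namespace Pool.Agent.Helper59.AB

open Pool.Agent.Helper10.AB
open Pool.Agent.Helper24.AB
open Pool.Agent.Helper15.AB (S_XI S_ATL XiI)

theorem pb (hXI : S_XI) (hEQV : S_EQV) : S_PB := by
  intro a A δ₀ ρ₀ s p B hD f hf hG
  obtain ⟨x1, -, -, -, -, -, -, x8⟩ := hXI a A s p hD.prof hD.pot.smooth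
  obtain ⟨e1, e2, -, -, -, -, -, -, -⟩ := hEQV a A δ₀ ρ₀ s p B hD
  have ha := hD.prof.a_pos
  have hsub : Cyl a ⊆ {q | |q.1 3| < 3 * a / 2} := by
    intro q hq
    have h1 : q.1 3 ^ 2 ≤ a ^ 2 :=
      (Finset.single_le_sum (f := fun i => q.1 i ^ 2) (fun i _ => sq_nonneg _)
        (Finset.mem_univ 3)).trans hq
    have h2 : |q.1 3| ≤ a := abs_le_of_sq_le_sq h1 ha.le
    show |q.1 3| < 3 * a / 2
    linarith
  have hPt : ∀ (ζ : Fin 4 → ℝ) (t : ℝ) (θ : Fin 3 → ℝ),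
      Xi a A s p (ζ, ![θ 0, θ 1, θ 2, t]) = Pt a A s p (⟨ζ 3, t⟩, ![ζ 0, ζ 1, ζ 2]) θ := by
    intro ζ t θ
    unfold Pt
    congr 2
    funext i
    fin_cases i <;> rfl
  refine ⟨hf.comp (x1.mono hsub) (fun q hq => (x8 q).2 hq), ?_, ?_⟩
  · intro ζ hζ t θ k
    unfold sl
    simp only
    have hmem : Pt a A s p (⟨ζ 3, t⟩, ![ζ 0, ζ 1, ζ 2]) θ ∈ closure (Omt a A s p) := by
      rw [← hPt]
      exact (x8 _).2 hζ
    rw [hPt, hPt, ← e2]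
    exact (hG _ hmem).2 k
  · intro ζ hζ t θ
    unfold sl
    simp only
    have hmem : Pt a A s p (⟨ζ 3, t⟩, ![ζ 0, ζ 1, ζ 2]) θ ∈ closure (Omt a A s p) := by
      rw [← hPt]
      exact (x8 _).2 hζ
    have h1 := e1 (⟨ζ 3, t⟩, ![ζ 0, ζ 1, ζ 2]) θ
    have h2 : ((⟨ζ 3, t⟩ : ℂ) + 2 * Real.pi * Complex.I) = ⟨ζ 3, t + 2 * Real.pi⟩ := by
      apply Complex.ext <;> simp
    rw [hPt, hPt, ← (hG _ hmem).1, h1]
    simp only [h2]

end Pool.Agent.Helper59.AB
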