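import Pool.Agent.Helper15.AB.GoalsT

/-!
# Packet AB-AFF: the elements of the group are affine maps with determinant one
-/

set_option autoImplicit false

open MeasureTheory Set Filter Topology
open scoped ContDiff

namespace Pool.Agent.Helper59.AB

open Pool.Agent.Helper24.AB Pool.Agent.Helper15.AB

/-- affine with determinant one -/
def Aff59 (f : V4 → V4) : Prop := ∃ (L : V4 ≃L[ℂ] V4) (c : V4),
  (L : V4 →L[ℂ] V4).det = 1 ∧ ∀ P, f P = L P + c

lemma aff59_comp {f g : V4 → V4} (hf : Aff59 f) (hg : Aff59 g) : Aff59 (fun P => f (g P)) := by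
  obtain ⟨L1, c1, d1, h1⟩ := hf
  obtain ⟨L2, c2, d2, h2⟩ := hg
  refine ⟨L2.trans L1, L1 c2 + c1, ?_, fun P => ?_⟩
  · have e : ((L2.trans L1 : V4 ≃L[ℂ] V4) : V4 →L[ℂ] V4).det
        = LinearMap.det (((L1 : V4 →L[ℂ] V4) : V4 →ₗ[ℂ] V4) ∘ₗ
            ((L2 : V4 →L[ℂ] V4) : V4 →ₗ[ℂ] V4)) := rfl
    rw [e, LinearMap.det_comp]
    have e1 : LinearMap.det ((L1 : V4 →L[ℂ] V4) : V4 →ₗ[ℂ] V4) = 1 := d1
    have e2 : LinearMap.det ((L2 : V4 →L[ℂ] V4) : V4 →ₗ[ℂ] V4) = 1 := d2
    rw [e1, e2, one_mul]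
  · show f (g P) = _
    rw [h1, h2, map_add, ContinuousLinearEquiv.trans_apply, add_assoc]

lemma aff59_inv {f g : V4 → V4} (hf : Aff59 f) (hg : ∀ P, f (g P) = P) : Aff59 g := by
  obtain ⟨L1, c1, d1, h1⟩ := hf
  refine ⟨L1.symm, -L1.symm c1, ?_, fun P => ?_⟩
  · have e : LinearMap.det (((L1 : V4 →L[ℂ] V4) : V4 →ₗ[ℂ] V4) ∘ₗ
            ((L1.symm : V4 →L[ℂ] V4) : V4 →ₗ[ℂ] V4)) = 1 := by
      have : ((L1 : V4 →L[ℂ] V4) : V4 →ₗ[ℂ] V4) ∘ₗ
            ((L1.symm : V4 →L[ℂ] V4) : V4 →ₗ[ℂ] V4) = LinearMap.id := by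
        ext1 x
        ext i
        simp
      rw [this, LinearMap.det_id]
    rw [LinearMap.det_comp] at e
    have e1 : LinearMap.det ((L1 : V4 →L[ℂ] V4) : V4 →ₗ[ℂ] V4) = 1 := d1
    rw [e1, one_mul] at e
    exact e
  · have h2 := h1 (g P)
    rw [hg] at h2
    have h3 : L1.symm P = g P + L1.symm c1 := by
      conv_lhs => rw [h2]
      rw [map_add, ContinuousLinearEquiv.symm_apply_apply]
    rw [h3]
    abel

/-- the matrix of `gE` -/
def M59 : Matrix (Fin 4) (Fin 4) ℂ := !![2, 1, 0, 0; 1, 1, 0, 0; 0, 0, 1, 0; 0, 0, 0, 1]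

lemma M59_det : M59.det = 1 := by
  unfold M59
  have h1 : Fin.succAbove (1 : Fin 4) 2 = 3 := by decide
  simp [Matrix.det_succ_row_zero, Fin.sum_univ_succ, h1]
  try norm_num

lemma aff59_g : Aff59 gE := by
  have hu : IsUnit (LinearMap.det (Matrix.toLin' M59)) := by
    rw [LinearMap.det_toLin', M59_det]; exact isUnit_one
  refine ⟨(LinearEquiv.ofIsUnitDet (v := Pi.basisFun ℂ (Fin 4)) (v' := Pi.basisFun ℂ (Fin 4))
    (f := Matrix.toLin' M59) (by
      rw [LinearMap.toMatrix_eq_toMatrix', LinearMap.toMatrix'_toLin', M59_det]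
      exact isUnit_one)).toContinuousLinearEquiv, ![0, 0, 0, 2 * Real.pi * Complex.I], ?_, ?_⟩
  · have : LinearMap.det (Matrix.toLin' M59) = 1 := by rw [LinearMap.det_toLin', M59_det]
    exact this
  · intro P
    funext i
    have h : (LinearEquiv.ofIsUnitDet (v := Pi.basisFun ℂ (Fin 4)) (v' := Pi.basisFun ℂ (Fin 4))
        (f := Matrix.toLin' M59) (by
        rw [LinearMap.toMatrix_eq_toMatrix', LinearMap.toMatrix'_toLin', M59_det]
        exact isUnit_one)).toContinuousLinearEquiv P = M59.mulVec P := rfl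
    rw [h]
    fin_cases i <;> simp [gE, M59, dotProduct, Fin.sum_univ_succ]

lemma aff59_t (k : Fin 3 → ℤ) : Aff59 (tE k) := by
  refine ⟨ContinuousLinearEquiv.refl ℂ V4, ![2 * Real.pi * Complex.I * k 0,
    2 * Real.pi * Complex.I * k 1, 2 * Real.pi * Complex.I * k 2, 0], ?_, ?_⟩
  · have : LinearMap.det (LinearMap.id : V4 →ₗ[ℂ] V4) = 1 := LinearMap.det_id
    exact this
  · intro P
    funext i
    fin_cases i <;> simp [tE]

theorem aff : S_AFF := by
  have hz : ∀ j : ℤ, Aff59 (fun P => (gE ^ j) P) := by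
    intro j
    have hginv : Aff59 (fun P => gE⁻¹ P) := by
      refine aff59_inv aff59_g fun P => ?_
      exact gE.apply_symm_apply P
    induction j using Int.induction_on with
    | zero =>
      refine ⟨ContinuousLinearEquiv.refl ℂ V4, 0, ?_, fun P => by simp⟩
      have : LinearMap.det (LinearMap.id : V4 →ₗ[ℂ] V4) = 1 := LinearMap.det_id
      exact this
    | succ j ih =>
      have h := aff59_comp ih aff59_g
      have e : (fun P => (gE ^ ((j : ℤ) + 1)) P) = fun P => (gE ^ (j : ℤ)) (gE P) := by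
        funext P
        rw [zpow_add_one]
        rfl
      rw [e]
      exact h
    | pred j ih =>
      have h := aff59_comp ih hginv
      have e : (fun P => (gE ^ (-(j : ℤ) - 1)) P) = fun P => (gE ^ (-(j : ℤ))) (gE⁻¹ P) := by
        funext P
        rw [zpow_sub_one]
        rfl
      rw [e]
      exact h
  intro j k
  exact aff59_comp (aff59_t k) (hz j)

end Pool.Agent.Helper59.AB
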