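import Pool.Agent.Helper15.AB.GoalsT

/-!
# Packet AB-LVI: the image of a tube is a smooth bounded pseudoconvex domain
-/

set_option autoImplicit false

open MeasureTheory Set Filter Topology
open scoped ContDiff

namespace Pool.Agent.Helper59.AB

open Pool.Agent.Helper24.AB Pool.Agent.Helper15.AB

theorem lvi (hLEVC : S_LEVC) (hIMG : S_IMG) (hDFN : S_DFN) (hCLW : S_CLW) (hUNB : S_UNB) :
    S_LVI := by
  intro η a r W Θ hT hE
  obtain ⟨-, hopW, hconn, hbdd, hcl, -, -⟩ := hIMG η a r W Θ hT hE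
  obtain ⟨ρ, hρ, hρr⟩ := hDFN η a r W Θ hT hE
  obtain ⟨-, hle, hfr, -, -⟩ := hCLW η a r W hT
  have hUo : IsOpen (Unb η) := (hUNB η).1
  refine { isOpen := hopW, isConnected := hconn, isBounded := hbdd, levi := ⟨ρ, hρ, ?_⟩ }
  intro z hz ξ h1 h2
  have hzc : z ∈ closure (Θ '' W) := frontier_subset_closure hz
  have hzn : z ∉ Θ '' W := by
    intro hmem
    rw [frontier, Set.mem_sdiff, hopW.interior_eq] at hz
    exact hz.2 hmem
  obtain ⟨U, hU, hUc, hUs, -, -⟩ := hρ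
  have hsm : ContDiffAt ℝ 2 ρ z :=
    (hUs.contDiffAt (hU.mem_nhds (hUc hzc))).of_le (by norm_cast)
  rw [hcl] at hzc
  obtain ⟨P, hPc, rfl⟩ := hzc
  have hPW : P ∉ W := fun h => hzn ⟨P, h, rfl⟩
  have hrP : r P = 0 := hfr P hPc hPW
  have ha := hT.a_pos
  have hP3 : |(P 3).re| < 3 * a / 2 := by
    have := (hle P hPc).1
    linarith
  have hPU : P ∈ Unb η := hT.sub hPc
  have hΘ : DifferentiableAt ℂ Θ P := (hE.holo P hPU).differentiableAt (hUo.mem_nhds hPU)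
  have hev : (fun Q => ρ (Θ Q)) =ᶠ[𝓝 P] r := by
    have ho : IsOpen {Q : V4 | |(Q 3).re| < 3 * a / 2} :=
      isOpen_lt (by fun_prop) continuous_const
    filter_upwards [hUo.mem_nhds hPU, ho.mem_nhds hP3] with Q hQ1 hQ2
    exact hρr Q hQ1 hQ2
  have hfd : fderiv ℝ (fun Q => ρ (Θ Q)) P = fderiv ℝ r P := hev.fderiv_eq
  have hfd2 : fderiv ℝ (fderiv ℝ (fun Q => ρ (Θ Q))) P = fderiv ℝ (fderiv ℝ r) P :=
    hev.fderiv.fderiv_eq
  have hlev : ∀ ξ', leviForm (fun Q => ρ (Θ Q)) P ξ' = leviForm r P ξ' := by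
    intro ξ'
    unfold leviForm
    rw [hfd2]
  -- chain rule
  have hρd : DifferentiableAt ℝ ρ (Θ P) := hsm.differentiableAt (by norm_num)
  have hΘr : HasFDerivAt Θ ((fderiv ℂ Θ P).restrictScalars ℝ) P :=
    hΘ.hasFDerivAt.restrictScalars ℝ
  have hch : ∀ v, fderiv ℝ r P v = fderiv ℝ ρ (Θ P) (fderiv ℂ Θ P v) := by
    intro v
    have h3 : HasFDerivAt (fun Q => ρ (Θ Q))
        ((fderiv ℝ ρ (Θ P)).comp ((fderiv ℂ Θ P).restrictScalars ℝ)) P :=
      hρd.hasFDerivAt.comp P hΘr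
    rw [← hfd, h3.fderiv]
    rfl
  -- inverse of the derivative
  have hdet := hE.der P hPU
  obtain ⟨ξ', hξ'⟩ : ∃ ξ', fderiv ℂ Θ P ξ' = ξ :=
    ⟨((fderiv ℂ Θ P).toContinuousLinearEquivOfDetNeZero hdet).symm ξ, by
      have := ((fderiv ℂ Θ P).toContinuousLinearEquivOfDetNeZero hdet).apply_symm_apply ξ
      rwa [ContinuousLinearMap.toContinuousLinearEquivOfDetNeZero_apply] at this⟩
  have e1 : fderiv ℝ r P ξ' = 0 := by rw [hch, hξ']; exact h1
  have e2 : fderiv ℝ r P (Complex.I • ξ') = 0 := by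
    rw [hch, map_smul, hξ']; exact h2
  have h4 := hT.levi P hP3 hrP ξ' e1 e2
  have h5 := hLEVC (Unb η) Θ ρ P hUo hE.holo hPU hsm ξ'
  rw [hlev, hξ'] at h5
  rw [← h5]
  exact h4

end Pool.Agent.Helper59.AB
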